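import Pool.Agent.H29.FL4.Stmts

/-!
# Board fl4, row POS
-/

set_option autoImplicit false

open Matrix MeasureTheory

namespace Pool.FL4

open Pool.FLT

namespace H54POS

theorem r0 : r 0 = √2 := rfl
theorem r1 : r 1 = √2 := rfl
theorem r2 : r 2 = -√2 := rfl
theorem r3 : r 3 = -√2 := rfl

theorem y0 (i : ℕ) : yy i 0 = √(be i 0 ^ 2 - 1) := by
  change (1 : ℝ) * √(be i 0 ^ 2 - 1) = _
  ring
theorem y1 (i : ℕ) : yy i 1 = -√(be i 1 ^ 2 - 1) := by
  change (-1 : ℝ) * √(be i 1 ^ 2 - 1) = _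
  ring
theorem y2 (i : ℕ) : yy i 2 = √(be i 2 ^ 2 - 1) := by
  change (1 : ℝ) * √(be i 2 ^ 2 - 1) = _
  ring
theorem y3 (i : ℕ) : yy i 3 = -√(be i 3 ^ 2 - 1) := by
  change (-1 : ℝ) * √(be i 3 ^ 2 - 1) = _
  ring

theorem b1 (i : ℕ) : be i 1 = be i 0 := rfl
theorem b3 (i : ℕ) : be i 3 = be i 2 := rfl

theorem sqrt_lo : (14142 : ℝ) / 10000 < √2 := by
  apply Real.lt_sqrt_of_sq_lt
  norm_num

theorem sqrt_hi : √2 < (14143 : ℝ) / 10000 := by
  rw [Real.sqrt_lt' (by norm_num)]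
  norm_num

end H54POS

open H54POS in
theorem pos (hSEQ : SEQStmt) : POSStmt := by
  intro i hi
  obtain ⟨-, -, -, -, -, h1, h2, -⟩ := hSEQ i
  have hlo := sqrt_lo
  have hhi := sqrt_hi
  have hs : √2 ^ 2 = 2 := Real.sq_sqrt (by norm_num)
  have ht1 : (33 : ℝ) ≤ 17 + 12 * √2 := by linarith
  have ht : (33 : ℝ) ≤ (17 + 12 * √2) ^ i :=
    ht1.trans (le_self_pow₀ (by linarith) (by omega))
  have hu0 : 0 ≤ (17 - 12 * √2) ^ i := pow_nonneg (by linarith) i
  have hu1 : (17 - 12 * √2) ^ i ≤ 17 - 12 * √2 :=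
    pow_le_of_le_one (by linarith) (by linarith) (by omega)
  have e0 : be i 0 = (17 + 12 * √2) ^ i + √2 := by
    unfold be
    rw [r0, ← h1]
    ring
  have e2 : be i 2 = (17 - 12 * √2) ^ i - √2 := by
    unfold be
    rw [r2, ← h2]
    ring
  have g2 : be i 2 < -(138 / 100) := by
    rw [e2]
    linarith
  have g0 : 34 < be i 0 := by
    rw [e0]
    linarith
  have p0 : 0 < be i 0 ^ 2 - 1 := by nlinarith
  have p2 : 0 < be i 2 ^ 2 - 1 := by nlinarith
  have q0 : 0 < yy i 0 := by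
    rw [y0]
    exact Real.sqrt_pos.mpr p0
  have q2 : 0 < yy i 2 := by
    rw [y2]
    exact Real.sqrt_pos.mpr p2
  have c1 : yy i 1 = - yy i 0 := by rw [y1, y0, b1]
  have c3 : yy i 3 = - yy i 2 := by rw [y3, y2, b3]
  have s0 : yy i 0 ^ 2 = be i 0 ^ 2 - 1 := by
    rw [y0]
    exact Real.sq_sqrt p0.le
  have s2 : yy i 2 ^ 2 = be i 2 ^ 2 - 1 := by
    rw [y2]
    exact Real.sq_sqrt p2.le
  refine ⟨?_, ?_, ?_, ?_, ht, c1, c3, q0, q2, e0, b1 i, e2, b3 i, g2⟩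
  · intro j
    fin_cases j
    · exact hs
    · exact hs
    · change (-√2) ^ 2 = 2
      rw [neg_sq, hs]
    · change (-√2) ^ 2 = 2
      rw [neg_sq, hs]
  · intro j
    fin_cases j
    · exact s0
    · change yy i 1 ^ 2 = be i 1 ^ 2 - 1
      rw [c1, neg_sq, b1, s0]
    · exact s2
    · change yy i 3 ^ 2 = be i 3 ^ 2 - 1
      rw [c3, neg_sq, b3, s2]
  · intro j
    fin_cases j
    · exact q0.ne'
    · change yy i 1 ≠ 0
      rw [c1]
      exact neg_ne_zero.mpr q0.ne'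
    · exact q2.ne'
    · change yy i 3 ≠ 0
      rw [c3]
      exact neg_ne_zero.mpr q2.ne'
  · have n0 : be i 0 ≠ 0 := by linarith
    have n2 : be i 2 ≠ 0 := by
      intro h
      rw [h] at g2
      norm_num at g2
    intro j
    fin_cases j
    · exact n0
    · change be i 1 ≠ 0
      rw [b1]
      exact n0
    · exact n2
    · change be i 3 ≠ 0
      rw [b3]
      exact n2

end Pool.FL4
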